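import Mathlib

set_option autoImplicit false

namespace Pool.Agent.Results.MP_90e7d5_co.Unb

open Finset

/-- star-`k`-PCG -/
def StarPCG {V : Type} (k : ℕ) (G : SimpleGraph V) : Prop :=
  ∃ w : V → ℝ, (∀ v, 0 < w v) ∧ ∃ a b : Fin k → ℝ, (∀ i, a i ≤ b i) ∧
    (Pairwise fun i j => Disjoint (Set.Icc (a i) (b i)) (Set.Icc (a j) (b j))) ∧
    ∀ u v, u ≠ v → (G.Adj u v ↔ ∃ i, w u + w v ∈ Set.Icc (a i) (b i))

theorem acyc {V : Type} [LinearOrder V] (G : SimpleGraph V) (p : V → V)
    (h : ∀ u w, G.Adj u w → w ≤ u → w = p u) : G.IsAcyclic := by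
  intro v c hc
  obtain ⟨u, hu, hmax⟩ := exists_max_image c.support.toFinset id ⟨v, by simp⟩
  rw [List.mem_toFinset] at hu
  have hc' := hc.rotate hu
  have hnil := hc'.not_nil
  have hm : ∀ w ∈ (c.rotate u hu).support, w ≤ u := fun w hw =>
    hmax w (List.mem_toFinset.2 ((SimpleGraph.Walk.mem_support_rotate_iff c u hu).1 hw))
  apply hc'.snd_ne_penultimate
  rw [h u _ (SimpleGraph.Walk.adj_snd hnil) (hm _ (SimpleGraph.Walk.getVert_mem_support _ _)),
    h u _ (SimpleGraph.Walk.adj_penultimate hnil).symm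
      (hm _ (SimpleGraph.Walk.getVert_mem_support _ _))]

theorem core (c k D : ℕ) (hk : k ≤ c) (hD : D = 2 * c + 2) (W : ℕ → ℝ) (a b : Fin k → ℝ)
    (h : ∀ u < D ^ (c + 3), ∀ v < D ^ (c + 3), u ≠ v →
      ((v = u / D ∨ u = v / D) ↔ ∃ i, W u + W v ∈ Set.Icc (a i) (b i))) : False := by
  have D2 : 2 ≤ D := by omega
  have lt : ∀ z v m, z < D ^ m → v / D = z → v < D ^ (m + 1) := fun z v m h1 h2 => by
    rw [pow_succ, ← Nat.div_lt_iff_lt_mul (by omega)]
    omega
  have up : ∀ z v, 1 ≤ z → v / D = z → z < v := fun z v h1 h2 =>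
    h2 ▸ Nat.div_lt_self (Nat.pos_of_ne_zero fun e => by rw [e, Nat.zero_div] at h2; omega) D2
  have mo : ∀ m ≤ c + 3, ∀ v < D ^ m, v < D ^ (c + 3) := fun m hm v hv =>
    hv.trans_le (Nat.pow_le_pow_right (by omega) hm)
  have : ∀ m ≤ c + 1, ∃ z, 1 ≤ z ∧ z < D ^ (m + 1) ∧ ∃ T : Finset (Fin k), m ≤ #T ∧
      ∀ v, v / D = z → ∀ j, W z + W v ∈ Set.Icc (a j) (b j) → ∀ i ∈ T, b j - a j < b i - a i := by
    intro m
    induction m with
    | zero => exact fun _ => ⟨1, le_rfl, by simp; omega, ∅, by simp, by simp⟩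
    | succ m ih =>
      intro hm
      obtain ⟨z, z1, z2, T, t1, t2⟩ := ih (by omega)
      have hc : ∀ v : ℕ, ∃ i : Option (Fin k), v / D = z →
          ∃ j, i = some j ∧ W z + W v ∈ Set.Icc (a j) (b j) := fun v => by
        by_cases e : v / D = z
        · obtain ⟨j, hj⟩ := (h z (mo _ (by omega) _ z2) v (mo _ (by omega) _ (lt z v _ z2 e))
            (up z v z1 e).ne).1 (Or.inr e.symm)
          exact ⟨j, fun _ => ⟨j, rfl, hj⟩⟩
        · exact ⟨none, fun e' => absurd e' e⟩
      choose f hf using hc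
      have ch : ∀ v ∈ Ico (z * D) (z * D + D), v / D = z := fun v hv => by
        rw [mem_Ico] at hv
        exact Nat.div_eq_of_lt_le hv.1 (by rw [add_mul, one_mul]; exact hv.2)
      obtain ⟨i, -, hi⟩ := exists_lt_card_fiber_of_mul_lt_card_of_maps_to
        (s := Ico (z * D) (z * D + D)) (t := univ.image some) (f := f) (n := 2)
        (fun v hv => by
          obtain ⟨j, e, -⟩ := hf v (ch v hv)
          simp [e])
        (by
          rw [card_image_of_injective _ (Option.some_injective _)]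
          simp
          omega)
      obtain ⟨j, x, y, u, e1, e2, e3, xy, yu, x1, y1, u1, w1, w2⟩ : ∃ j x y u, x / D = z ∧
          y / D = z ∧ u / D = z ∧ x ≠ y ∧ y ≠ u ∧ W z + W x ∈ Set.Icc (a j) (b j) ∧
          W z + W y ∈ Set.Icc (a j) (b j) ∧ W z + W u ∈ Set.Icc (a j) (b j) ∧
          W x ≤ W y ∧ W y ≤ W u := by
        obtain ⟨x, hx, y, hy, u, hu, xy, xu, yu⟩ := two_lt_card.1 hi
        rw [mem_filter] at hx hy hu
        have ex := ch x hx.1
        have ey := ch y hy.1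
        have eu := ch u hu.1
        obtain ⟨j, j1, x1⟩ := hf x ex
        obtain ⟨j', j2, y1⟩ := hf y ey
        obtain ⟨j'', j3, u1⟩ := hf u eu
        obtain rfl : j = j' := Option.some_injective _ (by rw [← j1, ← j2, hx.2, hy.2])
        obtain rfl : j = j'' := Option.some_injective _ (by rw [← j1, ← j3, hx.2, hu.2])
        rcases le_total (W x) (W y) with p | p <;> rcases le_total (W y) (W u) with q | q <;>
          rcases le_total (W x) (W u) with r | r
        all_goals first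
          | exact ⟨j, x, y, u, ex, ey, eu, xy, yu, x1, y1, u1, p, q⟩
          | exact ⟨j, x, u, y, ex, eu, ey, xu, yu.symm, x1, u1, y1, r, q⟩
          | exact ⟨j, u, x, y, eu, ex, ey, xu.symm, xy, u1, x1, y1, r, p⟩
          | exact ⟨j, y, x, u, ey, ex, eu, xy.symm, xu, y1, x1, u1, p, r⟩
          | exact ⟨j, y, u, x, ey, eu, ex, yu, xu.symm, y1, u1, x1, q, r⟩
          | exact ⟨j, u, y, x, eu, ey, ex, yu.symm, xy.symm, u1, y1, x1, q, p⟩
      have jT : j ∉ T := fun e => lt_irrefl _ (t2 y e2 j y1 j e)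
      have zy := up z y z1 e2
      refine ⟨y, by omega, lt z y _ z2 e2, insert j T, by rw [card_insert_of_notMem jT]; omega,
        fun v ev l hl => ?_⟩
      have yv := up y v (by omega) ev
      have no : ∀ s, s / D = z → s ≠ y → W s + W v ∉ Set.Icc (a l) (b l) := fun s es sy hs => by
        have := (h s (mo _ (by omega) _ (lt z s _ z2 es)) v
          (mo _ (by omega) _ (lt y v _ (lt z y _ z2 e2) ev)) (by rintro rfl; omega)).2 ⟨l, hs⟩
        omega
      have n1 := no x e1 xy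
      have n2 := no u e3 yu.symm
      simp only [Set.mem_Icc, not_and_or, not_le] at n1 n2 hl x1 u1
      have : b l - a l < b j - a j := by
        rcases n1 with n1 | n1 <;> rcases n2 with n2 | n2 <;> linarith [hl.1, hl.2, x1.1, u1.2]
      intro i hi
      rcases mem_insert.1 hi with rfl | hi
      · exact this
      · exact this.trans (t2 y e2 j y1 i hi)
  obtain ⟨-, -, -, T, t1, -⟩ := this _ le_rfl
  have := card_le_univ T
  rw [Fintype.card_fin] at this
  omega

theorem result (c : ℕ) : ∃ (n : ℕ) (G : SimpleGraph (Fin n)),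
    G.IsAcyclic ∧ ∀ k ≤ c, ¬ StarPCG k G := by
  obtain ⟨D, hD⟩ : ∃ D, D = 2 * c + 2 := ⟨_, rfl⟩
  refine ⟨D ^ (c + 3), SimpleGraph.fromRel fun u v => (v : ℕ) = u / D,
    acyc _ (fun u => ⟨u / D, (Nat.div_le_self _ _).trans_lt u.2⟩) fun u w h e => ?_, ?_⟩
  · rw [SimpleGraph.fromRel_adj] at h
    rcases h.2 with h' | h'
    · exact Fin.ext h'
    · exact absurd (le_antisymm (Fin.le_def.2 (h' ▸ Nat.div_le_self _ _)) e) h.1
  · rintro k hk ⟨w, -, a, b, -, -, h⟩
    refine core c k D hk hD (fun u => if e : u < D ^ (c + 3) then w ⟨u, e⟩ else 0) a b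
      fun u hu v hv e => ?_
    have e' : (⟨u, hu⟩ : Fin _) ≠ ⟨v, hv⟩ := fun x => e (congrArg Fin.val x)
    simp only [dif_pos hu, dif_pos hv]
    rw [← h _ _ e', SimpleGraph.fromRel_adj]
    exact (and_iff_right e').symm

end Pool.Agent.Results.MP_90e7d5_co.Unb
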